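import Pool.Agent.TH598.GV.Defs

/-!
# Gaussian integrals of polynomials on `ℂ^S`
-/

set_option autoImplicit false

namespace Pool.Agent.TH643.J3412

open Finset MeasureTheory Pool.Agent.TH598.GV
open scoped ComplexConjugate ComplexOrder

lemma integral_norm_pow (m : ℕ) :
    ∫ z : ℂ, ‖z‖ ^ (2 * m) * Real.exp (-‖z‖ ^ 2) = Real.pi * (m.factorial : ℝ) := by
  have h := Complex.integral_rpow_mul_exp_neg_rpow (p := 2) (q := 2 * m) (by norm_num)
    (by have : (0 : ℝ) ≤ m := Nat.cast_nonneg m; linarith)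
  have e1 : (2 * Real.pi / 2) * Real.Gamma ((2 * (m : ℝ) + 2) / 2) = Real.pi * (m.factorial : ℝ) := by
    have : (2 * (m : ℝ) + 2) / 2 = m + 1 := by ring
    rw [this, Real.Gamma_nat_eq_factorial]; ring
  rw [← e1, ← h]
  congr 1
  ext z
  congr 1
  · have : (2 * (m : ℝ)) = ((2 * m : ℕ) : ℝ) := by push_cast; ring
    rw [this, Real.rpow_natCast]
  · congr 1
    rw [Real.rpow_two]

lemma int1 (m : ℕ) : Integrable (fun z : ℂ => ‖z‖ ^ (2 * m) * Real.exp (-‖z‖ ^ 2)) := by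
  by_contra h
  have h1 := integral_norm_pow m
  rw [integral_undef h] at h1
  have h2 : 0 < Real.pi * (m.factorial : ℝ) :=
    mul_pos Real.pi_pos (by exact_mod_cast Nat.factorial_pos m)
  linarith

lemma int2 (n : ℕ) : Integrable (fun z : ℂ => (1 + ‖z‖ ^ 2) ^ n * Real.exp (-‖z‖ ^ 2)) := by
  have e : (fun z : ℂ => (1 + ‖z‖ ^ 2) ^ n * Real.exp (-‖z‖ ^ 2)) =
      fun z : ℂ => ∑ m ∈ range (n + 1), (n.choose m : ℝ) * (‖z‖ ^ (2 * m) * Real.exp (-‖z‖ ^ 2)) := by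
    ext z
    rw [add_comm (1 : ℝ), add_pow, Finset.sum_mul]
    refine Finset.sum_congr rfl fun m _ => ?_
    rw [one_pow, mul_one, ← pow_mul]
    ring
  rw [e]
  exact integrable_finsetSum _ fun m _ => (int1 m).const_mul _

lemma gw_prod {S : Type} [Fintype S] (ξ : S → ℂ) : gw ξ = ∏ s, Real.exp (-‖ξ s‖ ^ 2) := by
  unfold gw
  rw [← Finset.sum_neg_distrib, Real.exp_sum]

lemma one_add_le {S : Type} (t : Finset S) (a : S → ℝ) (ha : ∀ s, 0 ≤ a s) :
    1 + ∑ s ∈ t, a s ≤ ∏ s ∈ t, (1 + a s) ∧ 1 ≤ ∏ s ∈ t, (1 + a s) := by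
  classical
  induction t using Finset.induction_on with
  | empty => simp
  | insert b t hb ih =>
    rw [Finset.sum_insert hb, Finset.prod_insert hb]
    have h1 := ha b
    obtain ⟨h2, h3⟩ := ih
    constructor
    · nlinarith [mul_le_mul_of_nonneg_left h3 h1]
    · nlinarith [mul_le_mul_of_nonneg_left h3 h1]

/-- J1 -/
theorem int_growth {S : Type} [Fintype S] (f : (S → ℂ) → ℂ) (hc : Continuous f) (C : ℝ) (n : ℕ)
    (h : ∀ ξ, ‖f ξ‖ ≤ C * (1 + ∑ s, ‖ξ s‖ ^ 2) ^ n) :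
    Integrable (fun ξ => f ξ * (gw ξ : ℂ)) := by
  have hg : Integrable (fun ξ : S → ℂ => |C| * ∏ s, (1 + ‖ξ s‖ ^ 2) ^ n * Real.exp (-‖ξ s‖ ^ 2)) := by
    refine Integrable.const_mul ?_ _
    exact Integrable.fintype_prod (fun s : S => int2 n)
  refine hg.mono' ?_ ?_
  · have hgc : Continuous (fun ξ : S → ℂ => (gw ξ : ℂ)) := by
      unfold gw
      fun_prop
    exact (hc.mul hgc).aestronglyMeasurable
  · refine Filter.Eventually.of_forall fun ξ => ?_
    have hN : 1 ≤ 1 + ∑ s, ‖ξ s‖ ^ 2 := by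
      have : 0 ≤ ∑ s, ‖ξ s‖ ^ 2 := Finset.sum_nonneg fun s _ => sq_nonneg _
      linarith
    have hgp : 0 < gw ξ := Real.exp_pos _
    rw [norm_mul, Complex.norm_real, Real.norm_eq_abs, abs_of_pos hgp, Finset.prod_mul_distrib,
      ← gw_prod, Finset.prod_pow, ← mul_assoc]
    refine mul_le_mul_of_nonneg_right ?_ hgp.le
    refine (h ξ).trans ?_
    refine (mul_le_mul_of_nonneg_right (le_abs_self C) (by positivity)).trans ?_
    refine mul_le_mul_of_nonneg_left ?_ (abs_nonneg C)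
    refine pow_le_pow_left₀ (by linarith) ?_ n
    exact (one_add_le Finset.univ (fun s => ‖ξ s‖ ^ 2) fun s => sq_nonneg _).1

theorem poly_growth {S : Type} [Fintype S] (p : MvPolynomial S ℂ) :
    ∃ (C : ℝ) (n : ℕ), ∀ ξ : S → ℂ, ‖MvPolynomial.eval ξ p‖ ≤ C * (1 + ∑ s, ‖ξ s‖ ^ 2) ^ n := by
  have hN : ∀ ξ : S → ℂ, 1 ≤ 1 + ∑ s, ‖ξ s‖ ^ 2 := fun ξ => by
    have : 0 ≤ ∑ s, ‖ξ s‖ ^ 2 := Finset.sum_nonneg fun s _ => sq_nonneg _
    linarith
  induction p using MvPolynomial.induction_on with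
  | C a =>
    refine ⟨‖a‖, 0, fun ξ => ?_⟩
    rw [MvPolynomial.eval_C, pow_zero, mul_one]
  | add p q hp hq =>
    obtain ⟨C1, n1, h1⟩ := hp
    obtain ⟨C2, n2, h2⟩ := hq
    refine ⟨|C1| + |C2|, n1 + n2, fun ξ => ?_⟩
    rw [map_add, add_mul]
    refine (norm_add_le _ _).trans (add_le_add ?_ ?_)
    · refine (h1 ξ).trans ?_
      refine mul_le_mul (le_abs_self C1) (pow_le_pow_right₀ (hN ξ) (by omega)) (by positivity)
        (abs_nonneg _)
    · refine (h2 ξ).trans ?_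
      refine mul_le_mul (le_abs_self C2) (pow_le_pow_right₀ (hN ξ) (by omega)) (by positivity)
        (abs_nonneg _)
  | mul_X p s hp =>
    obtain ⟨C1, n1, h1⟩ := hp
    refine ⟨|C1|, n1 + 1, fun ξ => ?_⟩
    rw [map_mul, MvPolynomial.eval_X, norm_mul, pow_succ, ← mul_assoc]
    have h2 : ‖ξ s‖ ≤ 1 + ∑ s, ‖ξ s‖ ^ 2 := by
      have h3 : ‖ξ s‖ ^ 2 ≤ ∑ s, ‖ξ s‖ ^ 2 :=
        Finset.single_le_sum (f := fun s => ‖ξ s‖ ^ 2) (fun s _ => sq_nonneg _) (Finset.mem_univ s)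
      nlinarith [sq_nonneg (‖ξ s‖ - 1)]
    refine mul_le_mul ?_ h2 (norm_nonneg _) (by positivity)
    exact (h1 ξ).trans (mul_le_mul_of_nonneg_right (le_abs_self C1) (by positivity))

lemma one_var (j k : ℕ) :
    ∫ z : ℂ, z ^ j * conj z ^ k * (Real.exp (-‖z‖ ^ 2) : ℂ) =
      if j = k then (Real.pi : ℂ) * (j.factorial : ℂ) else 0 := by
  split_ifs with h
  · subst h
    have e : ∀ z : ℂ, z ^ j * conj z ^ j * (Real.exp (-‖z‖ ^ 2) : ℂ) =
        ((‖z‖ ^ (2 * j) * Real.exp (-‖z‖ ^ 2) : ℝ) : ℂ) := by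
      intro z
      rw [← mul_pow, Complex.mul_conj, Complex.normSq_eq_norm_sq, pow_mul]
      push_cast
      ring
    simp_rw [e]
    rw [integral_complex_ofReal, integral_norm_pow]
    push_cast
    ring
  · set θ : ℝ := Real.pi / ((j : ℝ) - k) with hθ
    have hjk : (j : ℝ) - k ≠ 0 := by
      rw [sub_ne_zero]
      exact_mod_cast h
    set a : Circle := Circle.exp θ with ha
    have ha1 : (a : ℂ) ^ j * conj (a : ℂ) ^ k = -1 := by
      rw [ha, Circle.coe_exp, ← Complex.exp_conj, ← Complex.exp_nat_mul, ← Complex.exp_nat_mul,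
        ← Complex.exp_add]
      have e : (j : ℂ) * (θ * Complex.I) + (k : ℂ) * conj ((θ : ℂ) * Complex.I) =
          Real.pi * Complex.I := by
        rw [map_mul, Complex.conj_I, Complex.conj_ofReal]
        have : ((j : ℂ) - k) * (θ : ℂ) = Real.pi := by
          rw [hθ]
          push_cast
          have h1 : ((j : ℂ) - k) ≠ 0 := by exact_mod_cast hjk
          field_simp
        linear_combination Complex.I * this
      rw [e, Complex.exp_pi_mul_I]
    have h1 : ∫ z : ℂ, (fun z : ℂ => z ^ j * conj z ^ k * (Real.exp (-‖z‖ ^ 2) : ℂ)) (rotation a z) =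
        ∫ z : ℂ, z ^ j * conj z ^ k * (Real.exp (-‖z‖ ^ 2) : ℂ) :=
      (rotation a).measurePreserving.integral_comp (rotation a).toHomeomorph.measurableEmbedding
        (fun z : ℂ => z ^ j * conj z ^ k * (Real.exp (-‖z‖ ^ 2) : ℂ))
    have h2 : ∀ z : ℂ, (fun z : ℂ => z ^ j * conj z ^ k * (Real.exp (-‖z‖ ^ 2) : ℂ)) (rotation a z) =
        -(z ^ j * conj z ^ k * (Real.exp (-‖z‖ ^ 2) : ℂ)) := by
      intro z
      simp only [rotation_apply, norm_mul, Circle.norm_coe, one_mul, map_mul, mul_pow]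
      linear_combination (z ^ j * conj z ^ k * (Real.exp (-‖z‖ ^ 2) : ℂ)) * ha1
    simp_rw [h2] at h1
    rw [integral_neg] at h1
    have h3 := h1
    linear_combination (-1 / 2 : ℂ) * h3

/-- J1 -/
theorem monomial_int {S : Type} [Fintype S] [DecidableEq S] (α β : S → ℕ) :
    ∫ ξ : S → ℂ, (∏ s, ξ s ^ α s) * conj (∏ s, ξ s ^ β s) * (gw ξ : ℂ) =
      if α = β then (Real.pi : ℂ) ^ Fintype.card S * ∏ s, ((α s).factorial : ℂ) else 0 := by
  have e : ∀ ξ : S → ℂ, (∏ s, ξ s ^ α s) * conj (∏ s, ξ s ^ β s) * (gw ξ : ℂ) =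
      ∏ s, (ξ s ^ α s * conj (ξ s) ^ β s * (Real.exp (-‖ξ s‖ ^ 2) : ℂ)) := by
    intro ξ
    rw [Finset.prod_mul_distrib, Finset.prod_mul_distrib, gw_prod, map_prod, Complex.ofReal_prod]
    simp only [map_pow]
  simp_rw [e]
  rw [integral_fintype_prod_volume_eq_prod
    (fun (s : S) (z : ℂ) => z ^ α s * conj z ^ β s * (Real.exp (-‖z‖ ^ 2) : ℂ))]
  simp_rw [one_var]
  split_ifs with h
  · subst h
    simp only [if_true]
    rw [Finset.prod_mul_distrib, Finset.prod_const, Finset.card_univ]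
  · obtain ⟨s, hs⟩ := Function.ne_iff.1 h
    exact Finset.prod_eq_zero (Finset.mem_univ s) (if_neg hs)

end Pool.Agent.TH643.J3412
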